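import Pool.Agent.Helper95.PW.Stmts

/-! PW, row LIM: dominated convergence for the momentum operators with cut off. -/

set_option autoImplicit false

namespace Pool.Agent.Helper95.PW

open MeasureTheory Filter

theorem LIM_sm (i : Fin 3) (g : R3 → ℝ) (hg : ContDiff ℝ (⊤ : ℕ∞) g) :
    ContDiff ℝ (⊤ : ℕ∞) (pd i g) := by
  have h : ContDiff ℝ (⊤ : ℕ∞) (fun y => fderiv ℝ g y) := hg.fderiv_right (by simp)
  exact h.clm_apply contDiff_const

theorem LIM_ev (m : Fin 3) (R : ℝ) (h : ∀ y, nr y ≤ R → gm m R y = y m) (y : R3)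
    (hy : nr y < R) : gm m R =ᶠ[nhds y] fun z => z m := by
  have hc : Continuous nr := by unfold nr; fun_prop
  filter_upwards [hc.continuousAt.eventually_lt continuousAt_const hy] with z hz
  exact h z hz.le

theorem LIM_pd (i m : Fin 3) (g : R3 → ℝ) (y : R3) (h : g =ᶠ[nhds y] fun z => z m) :
    pd i g =ᶠ[nhds y] fun _ => if i = m then 1 else 0 := by
  filter_upwards [Filter.EventuallyEq.fderiv (𝕜 := ℝ) h] with z hz
  unfold pd
  rw [hz]
  have : (fun z : R3 => z m) = (ContinuousLinearMap.proj m : R3 →L[ℝ] ℝ) := rfl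
  rw [this, ContinuousLinearMap.fderiv]
  simp [Pi.single_apply, eq_comm]

theorem LIM_lap (m : Fin 3) (g : R3 → ℝ) (y : R3) (h : g =ᶠ[nhds y] fun z => z m) :
    lap g y = 0 := by
  unfold lap
  refine Finset.sum_eq_zero fun i _ => ?_
  have h1 := Filter.EventuallyEq.fderiv_eq (𝕜 := ℝ) (LIM_pd i m g y h)
  show fderiv ℝ (pd i g) y (Pi.single i 1) = 0
  rw [h1]
  simp

theorem st_LIM (hCUT : ST_CUT) : ST_LIM := by
  intro n E φ G m hG
  obtain ⟨K, hK1, hK, -⟩ := hCUT
  have hK0 : 0 ≤ K := by linarith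
  unfold sq
  refine tendsto_finsetSum _ fun s _ => ?_
  have hR : ∀ L : ℕ, (0 : ℝ) < (L : ℝ) + 1 := fun L => by positivity
  set F : Cf n → ℝ := fun x => ∑ k, ((∑ i, K * |G k i s x|) + 3 * K / 2 * |φ s x|) with hF
  have hFL : MemLp F 2 := by
    refine memLp_finsetSum _ fun k _ => MemLp.add ?_ ?_
    · exact memLp_finsetSum _ fun i _ => ((hG.lpG k i s).abs).const_mul K
    · exact ((hG.lp s).abs).const_mul _
  have hm1 : ∀ (L : ℕ) (k : Fin n) (i : Fin 3), Continuous fun x : Cf n =>
      pd i (gm m ((L : ℝ) + 1)) (x k) := fun L k i =>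
    (LIM_sm i _ (hK m _ (hR L)).1.sm).continuous.comp (continuous_apply k)
  have hm2 : ∀ (L : ℕ) (k : Fin n), Continuous fun x : Cf n =>
      lap (gm m ((L : ℝ) + 1)) (x k) := fun L k => by
    unfold lap
    refine continuous_finsetSum _ fun i _ => ?_
    exact (LIM_sm i _ (LIM_sm i _ (hK m _ (hR L)).1.sm)).continuous.comp (continuous_apply k)
  refine tendsto_integral_of_dominated_convergence (fun x => F x ^ 2) (fun L => ?_) ?_
    (fun L => ?_) ?_
  · refine AEStronglyMeasurable.pow ?_ 2
    unfold PG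
    refine Finset.aestronglyMeasurable_fun_sum _ fun k _ => AEStronglyMeasurable.add ?_ ?_
    · refine Finset.aestronglyMeasurable_fun_sum _ fun i _ => ?_
      exact (hm1 L k i).aestronglyMeasurable.mul (hG.lpG k i s).1
    · exact ((hm2 L k).div_const 2).aestronglyMeasurable.mul (hG.lp s).1
  · exact hFL.integrable_sq
  · refine Eventually.of_forall fun x => ?_
    have hb : |PG (gm m ((L : ℝ) + 1)) φ G s x| ≤ F x := by
      unfold PG
      refine (Finset.abs_sum_le_sum_abs _ _).trans ?_
      refine Finset.sum_le_sum fun k _ => (abs_add_le _ _).trans (add_le_add ?_ ?_)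
      · refine (Finset.abs_sum_le_sum_abs _ _).trans (Finset.sum_le_sum fun i _ => ?_)
        rw [abs_mul]
        exact mul_le_mul_of_nonneg_right ((hK m _ (hR L)).1.d1 i _) (abs_nonneg _)
      · rw [abs_mul]
        refine mul_le_mul_of_nonneg_right ?_ (abs_nonneg _)
        rw [abs_div, abs_of_pos (by norm_num : (0 : ℝ) < 2)]
        refine div_le_div_of_nonneg_right ?_ (by norm_num)
        unfold lap
        refine (Finset.abs_sum_le_sum_abs _ _).trans ?_
        refine (Finset.sum_le_card_nsmul _ _ K fun i _ => ?_).trans (by simp)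
        refine ((hK m _ (hR L)).1.d2 i i _).trans ?_
        rw [div_le_iff₀ (hR L)]
        have : (0 : ℝ) ≤ L := by positivity
        nlinarith
    rw [Real.norm_eq_abs, abs_pow]
    exact pow_le_pow_left₀ (abs_nonneg _) hb 2
  · refine Eventually.of_forall fun x => ?_
    refine (tendsto_congr' ?_).mpr tendsto_const_nhds
    have hev : ∀ᶠ L : ℕ in atTop, ∀ k, nr (x k) < (L : ℝ) + 1 := by
      rw [eventually_all]
      intro k
      obtain ⟨N, hN⟩ := exists_nat_gt (nr (x k))
      filter_upwards [eventually_ge_atTop N] with L hL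
      have : (N : ℝ) ≤ L := by exact_mod_cast hL
      linarith
    filter_upwards [hev] with L hL
    congr 1
    unfold PG
    refine Finset.sum_congr rfl fun k _ => ?_
    have he := LIM_ev m ((L : ℝ) + 1) (hK m _ (hR L)).2.1 (x k) (hL k)
    rw [LIM_lap m _ _ he]
    simp only [(LIM_pd _ m _ _ he).eq_of_nhds]
    simp

end Pool.Agent.Helper95.PW
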